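import Pool.Agent.K7.H49.PR.Geo
import Pool.Agent.TH894.SM8

/-!
# The asymptotic formula for binary Goldbach representation numbers for almost all values, modulo a prime, of
a bilinear form on two arbitrary sets of residues

Definitions used from `Pool.Agent.H560R3.GB`: `C₂`: the twin prime constant
`∏_{p > 2} (1 - 1 / (p - 1) ^ 2)`; `sing n`: the singular series `2 C₂ ∏_{p ∣ n, p > 2} (p - 1) / (p - 2)`;
`g n`: the number of ordered representations of `n` as a sum of two primes (`r₂(n; ℙ)` in the problem);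
`HL n = sing n * n / log ^ 2 n`: the prediction of Hardy and Littlewood for `g n`. From Mathlib: `ZMod p`: the
residues modulo `p`; `z.val`: the representative of `z` in `{0, ..., p - 1}`.

The exponential sums of denominator `p` of these families have a power saving; so their additive energy of some
order is minimal up to a constant factor.
-/

set_option autoImplicit false

namespace Pool.Agent.Results.MP_629a14_nt.BilinearResidues

open Finset Pool.Agent.H560R3.GB

/-- (1) the number of representations of `n` as a sum of two primes agrees with the prediction of Hardy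
and Littlewood up to a relative error of at most `ε`; (2) it lies between `(1 - ε) C₂` and `1 + ε` times
`n² / (φ(n) log² n)`; (3) `n` is a sum of two distinct primes. -/
def Holds (ε : ℝ) (n : ℕ) : Prop :=
  |(g n : ℝ) - HL n| ≤ ε * HL n ∧
  (1 - ε) * C₂ * ((n : ℝ) ^ 2 / (n.totient * Real.log n ^ 2)) ≤ g n ∧
  (g n : ℝ) ≤ (1 + ε) * ((n : ℝ) ^ 2 / (n.totient * Real.log n ^ 2)) ∧
  ∃ p q : ℕ, p.Prime ∧ q.Prime ∧ p ≠ q ∧ p + q = n

open Classical in
/-- The number of the pairs `(u, v)`, `u ∈ A`, `v ∈ B`, for which `c + κ r` is even, but does not satisfy `Holds ε`,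
where `r` is the residue of `u v + α u + β v` modulo `p` in `{0, ..., p - 1}`. -/
noncomputable def pairExceptions {p : ℕ} (ε : ℝ) (A B : Finset (ZMod p)) (α β : ZMod p → ZMod p) (c κ : ℕ) : ℕ :=
  ((A ×ˢ B).filter (fun w => Even (c + κ * (w.1 * w.2 + α w.1 + β w.2).val) ∧
    ¬ Holds ε (c + κ * (w.1 * w.2 + α w.1 + β w.2).val))).card

lemma C₂_nonneg : 0 ≤ C₂ := by
  unfold C₂
  apply Real.iInf_nonneg
  intro z
  apply prod_nonneg
  intro p hp
  rw [mem_filter, mem_Icc] at hp
  exact (Pool.Agent.TH894.SM.fac_pos p hp.1.1).le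

lemma holds_of (ε : ℝ) (hε : 0 < ε) (n : ℕ) (h2 : 2 ∣ n) (hG : Pool.Agent.W93.GB.Good ε n) : Holds ε n := by
  obtain ⟨h1, p, q, hp, hq, hpq, hn⟩ := hG
  have hp2 := hp.two_le
  have hn0 : n ≠ 0 := by omega
  have hnr : (0 : ℝ) < n := by exact_mod_cast Nat.pos_of_ne_zero hn0
  have hl : 0 < Real.log n := Real.log_pos (by exact_mod_cast (by omega : 1 < n))
  have ht : (0 : ℝ) < n.totient := by exact_mod_cast Nat.totient_pos.2 (Nat.pos_of_ne_zero hn0)
  obtain ⟨s1, s2⟩ := Pool.Agent.TH894.SM.sing_tot n hn0 h2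
  have hC := C₂_nonneg
  obtain ⟨Q, hQ⟩ : ∃ Q : ℝ, Q = n / Real.log n ^ 2 := ⟨_, rfl⟩
  have hQ0 : 0 < Q := by rw [hQ]; positivity
  have e : (n : ℝ) ^ 2 / (n.totient * Real.log n ^ 2) = n / n.totient * Q := by
    rw [hQ]
    field_simp
  have hHL : HL n = sing n * Q := by
    unfold HL
    rw [hQ]
  have hR0 : 0 < (n : ℝ) / n.totient := by positivity
  refine ⟨h1, ?_, ?_, p, q, hp, hq, hpq, hn⟩
  · rw [e]
    rw [hHL, abs_le] at h1
    rcases le_or_gt ε 1 with hε1 | hε1
    · have h3 : (1 - ε) * (C₂ * (n / n.totient) * Q) ≤ (1 - ε) * (sing n * Q) := by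
        apply mul_le_mul_of_nonneg_left _ (by linarith)
        exact mul_le_mul_of_nonneg_right s1 hQ0.le
      have e2 : (1 - ε) * C₂ * (n / n.totient * Q) = (1 - ε) * (C₂ * (n / n.totient) * Q) := by ring
      rw [e2]
      linarith [h1.1]
    · have h3 : (1 - ε) * C₂ * (n / n.totient * Q) ≤ 0 := by
        apply mul_nonpos_of_nonpos_of_nonneg _ (by positivity)
        exact mul_nonpos_of_nonpos_of_nonneg (by linarith) hC
      exact h3.trans (Nat.cast_nonneg _)
  · rw [e]
    rw [hHL, abs_le] at h1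
    have h3 : (1 + ε) * (sing n * Q) ≤ (1 + ε) * (n / n.totient * Q) := by
      apply mul_le_mul_of_nonneg_left _ (by linarith)
      exact mul_le_mul_of_nonneg_right s2 hQ0.le
    linarith [h1.2]

/-- Let `C`, `U` be natural numbers and `δ`, `ε > 0`. The following holds for every sufficiently large prime `p` and
all integers `c ≥ 0`, `κ ≥ 1` with `c + κ p ≤ p (log p) ^ C`.

For ALL sets `A`, `B` of residues modulo `p` with `|A| |B| ≥ p ^ (1 + δ)` and ALL functions `α`, `β` on the residues,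
for all but at most `|A| |B| / (log p) ^ U` of the pairs `(u, v)`, `u ∈ A`, `v ∈ B`, the number
`n = c + κ r`, where `0 ≤ r < p` and `r ≡ u v + α(u) + β(v) (mod p)`, is odd or satisfies `Holds ε`.

Here `Holds ε` says that the number `g n` of representations of `n` as a sum of two primes satisfies the asymptotic
formula of Hardy and Littlewood up to a relative error of at most `ε`, and lies between `(1 - ε) C₂` and `1 + ε`
times `n² / (φ(n) log² n)`, and that `n` is a sum of two distinct primes. -/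
theorem result (C U : ℕ) (δ ε : ℝ) (hδ : 0 < δ) (hε : 0 < ε) : ∃ p₀ : ℕ, ∀ p : ℕ, p₀ ≤ p → p.Prime →
    ∀ c κ : ℕ, 1 ≤ κ → (c : ℝ) + κ * p ≤ p * Real.log p ^ C →
      ∀ (A B : Finset (ZMod p)) (α β : ZMod p → ZMod p), (p : ℝ) ^ (1 + δ) ≤ A.card * B.card →
        (pairExceptions ε A B α β c κ : ℝ) ≤ A.card * B.card / Real.log p ^ U := by
  classical
  obtain ⟨q1, h1⟩ := Pool.Agent.K7.H49.PR.goldbach C U (δ / 2) ε (by positivity) hε
  refine ⟨q1, fun p hp hpp c κ hκ hcκ => ?_⟩
  haveI : Fact p.Prime := ⟨hpp⟩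
  have hcκ' : ((c + κ * p : ℕ) : ℝ) ≤ p * Real.log p ^ C := by push_cast; exact hcκ
  have hlt : ∀ (α β : ZMod p → ZMod p) (w : ZMod p × ZMod p), Pool.Agent.K7.H49.PR.res α β w ≤ p :=
    fun α β w => (ZMod.val_lt _).le
  intro A B α β hAB
  have h4 := h1 p hp (ZMod p × ZMod p) (A ×ˢ B) (Pool.Agent.K7.H49.PR.res α β)
    (fun w _ => hlt α β w)
    (fun k hk1 hkp => Pool.Agent.K7.H49.PR.bil_delta A B α β (δ / 2) (by
      have e : 1 + 2 * (δ / 2) = 1 + δ := by ring
      rw [e]; exact hAB) k hk1 hkp) c κ hκ hcκ'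
    ((A ×ˢ B).filter (fun w => Even (c + κ * (w.1 * w.2 + α w.1 + β w.2).val) ∧
      ¬ Holds ε (c + κ * (w.1 * w.2 + α w.1 + β w.2).val))) (filter_subset _ _)
    (fun w hw => by
      have h5 := (mem_filter.1 hw).2
      have h6 : 2 ∣ c + κ * Pool.Agent.K7.H49.PR.res α β w := even_iff_two_dvd.1 h5.1
      exact ⟨h6, fun hG => h5.2 (holds_of ε hε _ h6 hG)⟩)
  rw [card_product] at h4
  unfold pairExceptions
  push_cast at h4 ⊢
  exact h4

end Pool.Agent.Results.MP_629a14_nt.BilinearResidues
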