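import Pool.Agent.K7.H49.SM.Fam
import Pool.Agent.TH894.SM8

/-!
# The asymptotic formula for binary Goldbach representation numbers for almost all members of every
translate and dilate of the set of the integers composed of given small primes

Definitions used from `Pool.Agent.H560R3.GB`: `C₂`: the twin prime constant
`∏_{p > 2} (1 - 1 / (p - 1) ^ 2)`; `sing n`: the singular series `2 C₂ ∏_{p ∣ n, p > 2} (p - 1) / (p - 2)`;
`g n`: the number of ordered representations of `n` as a sum of two primes (`r₂(n; ℙ)` in the problem);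
`HL n = sing n * n / log ^ 2 n`: the prediction of Hardy and Littlewood for `g n`.

The sets considered are very thin (for `P` the set of all primes up to `(log X) ^ K` there are
`X ^ (1 - 1 / K + o(1))` such integers up to `X`), and they are not of a polynomial, digital or random
nature. The proof shows that their additive energy of some order is minimal up to a power of `log X`, by a
bound for exponential sums over them in which the condition on the number of the primes is essentially
`K > 2`, `|P| > y ^ (1 / 2 + 1 / K)`.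
-/

set_option autoImplicit false

namespace Pool.Agent.Results.MP_629a14_nt.ComposedOfGivenPrimes

open Finset Pool.Agent.H560R3.GB

/-- (1) the number of representations of `n` as a sum of two primes agrees with the prediction of Hardy
and Littlewood up to a relative error of at most `ε`; (2) it lies between `(1 - ε) C₂` and `1 + ε` times
`n² / (φ(n) log² n)`; (3) `n` is a sum of two distinct primes. -/
def Holds (ε : ℝ) (n : ℕ) : Prop :=
  |(g n : ℝ) - HL n| ≤ ε * HL n ∧
  (1 - ε) * C₂ * ((n : ℝ) ^ 2 / (n.totient * Real.log n ^ 2)) ≤ g n ∧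
  (g n : ℝ) ≤ (1 + ε) * ((n : ℝ) ^ 2 / (n.totient * Real.log n ^ 2)) ∧
  ∃ p q : ℕ, p.Prime ∧ q.Prime ∧ p ≠ q ∧ p + q = n

open Classical in
/-- The positive integers up to `X` all of whose prime factors belong to `P`. -/
noncomputable def composed (P : Finset ℕ) (X : ℕ) : Finset ℕ :=
  (Icc 1 X).filter (fun l => ∀ p : ℕ, p.Prime → p ∣ l → p ∈ P)

open Classical in
/-- The number of the integers `l ≤ X` composed of primes of `P` for which the number `c + κ l` is even,
but does not satisfy `Holds ε`. -/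
noncomputable def exceptions (ε : ℝ) (P : Finset ℕ) (X c κ : ℕ) : ℕ :=
  ((composed P X).filter (fun l => Even (c + κ * l) ∧ ¬ Holds ε (c + κ * l))).card

lemma composed_eq (P : Finset ℕ) (X : ℕ) : composed P X = Pool.Agent.K7.H49.SM.S P X := by
  classical
  ext l
  rw [Pool.Agent.K7.H49.SM.mem_S]
  unfold composed
  rw [mem_filter, mem_Icc]
  constructor
  · rintro ⟨⟨h1, h2⟩, h3⟩
    refine ⟨h1, h2, fun p hp => ?_⟩
    exact h3 p (Nat.prime_of_mem_primeFactors hp) (Nat.dvd_of_mem_primeFactors hp)
  · rintro ⟨h1, h2, h3⟩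
    refine ⟨⟨h1, h2⟩, fun p hp hpl => ?_⟩
    exact h3 (Nat.mem_primeFactors.2 ⟨hp, hpl, by omega⟩)

lemma C₂_nonneg : 0 ≤ C₂ := by
  unfold C₂
  apply Real.iInf_nonneg
  intro z
  apply prod_nonneg
  intro p hp
  rw [mem_filter, mem_Icc] at hp
  exact (Pool.Agent.TH894.SM.fac_pos p hp.1.1).le

lemma holds_of (ε : ℝ) (hε : 0 < ε) (n : ℕ) (h2 : 2 ∣ n) (hG : Pool.Agent.W93.GB.Good ε n) : Holds ε n := by
  obtain ⟨h1, p, q, hp, hq, hpq, hn⟩ := hG
  have hp2 := hp.two_le
  have hn0 : n ≠ 0 := by omega
  have hnr : (0 : ℝ) < n := by exact_mod_cast Nat.pos_of_ne_zero hn0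
  have hl : 0 < Real.log n := Real.log_pos (by exact_mod_cast (by omega : 1 < n))
  have ht : (0 : ℝ) < n.totient := by exact_mod_cast Nat.totient_pos.2 (Nat.pos_of_ne_zero hn0)
  obtain ⟨s1, s2⟩ := Pool.Agent.TH894.SM.sing_tot n hn0 h2
  have hC := C₂_nonneg
  obtain ⟨Q, hQ⟩ : ∃ Q : ℝ, Q = n / Real.log n ^ 2 := ⟨_, rfl⟩
  have hQ0 : 0 < Q := by rw [hQ]; positivity
  have e : (n : ℝ) ^ 2 / (n.totient * Real.log n ^ 2) = n / n.totient * Q := by
    rw [hQ]
    field_simp
  have hHL : HL n = sing n * Q := by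
    unfold HL
    rw [hQ]
  have hR0 : 0 < (n : ℝ) / n.totient := by positivity
  refine ⟨h1, ?_, ?_, p, q, hp, hq, hpq, hn⟩
  · rw [e]
    rw [hHL, abs_le] at h1
    rcases le_or_gt ε 1 with hε1 | hε1
    · have h3 : (1 - ε) * (C₂ * (n / n.totient) * Q) ≤ (1 - ε) * (sing n * Q) := by
        apply mul_le_mul_of_nonneg_left _ (by linarith)
        exact mul_le_mul_of_nonneg_right s1 hQ0.le
      have e2 : (1 - ε) * C₂ * (n / n.totient * Q) = (1 - ε) * (C₂ * (n / n.totient) * Q) := by ring
      rw [e2]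
      linarith [h1.1]
    · have h3 : (1 - ε) * C₂ * (n / n.totient * Q) ≤ 0 := by
        apply mul_nonpos_of_nonpos_of_nonneg _ (by positivity)
        exact mul_nonpos_of_nonpos_of_nonneg (by linarith) hC
      exact h3.trans (Nat.cast_nonneg _)
  · rw [e]
    rw [hHL, abs_le] at h1
    have h3 : (1 + ε) * (sing n * Q) ≤ (1 + ε) * (n / n.totient * Q) := by
      apply mul_le_mul_of_nonneg_left _ (by linarith)
      exact mul_le_mul_of_nonneg_right s2 hQ0.le
    linarith [h1.2]

/-- Let `C`, `U` be natural numbers and `δ`, `ε > 0`. For every sufficiently large `X`, every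
`2 ≤ y ≤ (log X) ^ C`, EVERY set `P` of at least `y ^ (1 / 2 + δ) log X` primes up to `y`, and all
integers `c ≥ 0`, `κ ≥ 1` with `c + κ X ≤ X (log X) ^ C` the following holds for all but at most a
proportion `(log X) ^ (-U)` of the integers `l ≤ X` composed of primes of `P`: the number `n = c + κ l` is
odd, or the number `g n` of its representations as a sum of two primes satisfies the asymptotic formula of
Hardy and Littlewood up to a relative error of at most `ε`, lies between `(1 - ε) C₂` and `1 + ε` times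
`n² / (φ(n) log² n)`, and `n` is a sum of two distinct primes. -/
theorem result (C U : ℕ) (δ ε : ℝ) (hδ : 0 < δ) (hε : 0 < ε) : ∃ X₀ : ℕ, ∀ X : ℕ, X₀ ≤ X →
    ∀ y : ℕ, 2 ≤ y → (y : ℝ) ≤ Real.log X ^ C →
    ∀ P : Finset ℕ, (∀ p ∈ P, p.Prime ∧ p ≤ y) → (y : ℝ) ^ (1 / 2 + δ) * Real.log X ≤ P.card →
    ∀ c κ : ℕ, 1 ≤ κ → (c : ℝ) + κ * X ≤ X * Real.log X ^ C →
      (exceptions ε P X c κ : ℝ) ≤ (composed P X).card / Real.log X ^ U := by
  classical
  obtain ⟨X₀, hX₀⟩ := Pool.Agent.K7.H49.SM.goldbach C U δ ε hδ hε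
  refine ⟨X₀, fun X hX y hy hyC P hP hc c κ hκ hcκ => ?_⟩
  unfold exceptions
  have h1 := hX₀ X hX y hy hyC P hP hc c κ hκ (by push_cast; exact hcκ)
    ((composed P X).filter (fun l => Even (c + κ * l) ∧ ¬ Holds ε (c + κ * l)))
    (by rw [← composed_eq]; exact filter_subset _ _)
    (fun l hl => by
      have h2 := (mem_filter.1 hl).2
      have h3 : 2 ∣ c + κ * l := even_iff_two_dvd.1 h2.1
      exact ⟨h3, fun hG => h2.2 (holds_of ε hε _ h3 hG)⟩)
  rw [← composed_eq] at h1
  exact h1

end Pool.Agent.Results.MP_629a14_nt.ComposedOfGivenPrimes
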