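import Pool.Agent.K7.H49.CX.Gold
import Pool.Agent.TH894.SM8

/-!
# The asymptotic formula for binary Goldbach representation numbers for almost all members of every
sequence near a convex or concave function

Definitions used from `Pool.Agent.H560R3.GB`: `C₂`: the twin prime constant
`∏_{p > 2} (1 - 1 / (p - 1) ^ 2)`; `sing n`: the singular series `2 C₂ ∏_{p ∣ n, p > 2} (p - 1) / (p - 2)`;
`g n`: the number of ordered representations of `n` as a sum of two primes (`r₂(n; ℙ)` in the problem);
`HL n = sing n * n / log ^ 2 n`: the prediction of Hardy and Littlewood for `g n`.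

The function is an ARBITRARY real function whose second differences have one sign and are not too small (no
smoothness is assumed, and nothing about the third differences), and the members of the sequence may
differ from its values arbitrarily by up to a power of `log N`. The exponential sums over such sequences need
not be small; the proof shows instead that the additive energy of some order of a sequence of this kind is
minimal up to a power of `log N`.
-/

set_option autoImplicit false

namespace Pool.Agent.Results.MP_629a14_nt.ConvexSequences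

open Finset Pool.Agent.H560R3.GB

/-- (1) the number of representations of `n` as a sum of two primes agrees with the prediction of Hardy
and Littlewood up to a relative error of at most `ε`; (2) it lies between `(1 - ε) C₂` and `1 + ε` times
`n² / (φ(n) log² n)`; (3) `n` is a sum of two distinct primes. -/
def Holds (ε : ℝ) (n : ℕ) : Prop :=
  |(g n : ℝ) - HL n| ≤ ε * HL n ∧
  (1 - ε) * C₂ * ((n : ℝ) ^ 2 / (n.totient * Real.log n ^ 2)) ≤ g n ∧
  (g n : ℝ) ≤ (1 + ε) * ((n : ℝ) ^ 2 / (n.totient * Real.log n ^ 2)) ∧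
  ∃ p q : ℕ, p.Prime ∧ q.Prime ∧ p ≠ q ∧ p + q = n

/-- The numbers `t 1, ..., t x` differ by at most `W` from the values of some real function `f` on
`{1, ..., x}` whose second differences are all at least `lam`, or all at most `-lam`. -/
def NearConvex (x : ℕ) (t : ℕ → ℕ) (W lam : ℝ) : Prop :=
  ∃ f : ℕ → ℝ, (∀ m, 1 ≤ m → m ≤ x → |(t m : ℝ) - f m| ≤ W) ∧
    ((∀ m, 1 ≤ m → m + 2 ≤ x → lam ≤ f (m + 2) - 2 * f (m + 1) + f m) ∨
      (∀ m, 1 ≤ m → m + 2 ≤ x → f (m + 2) - 2 * f (m + 1) + f m ≤ -lam))

open Classical in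
/-- The number of the indices `1 ≤ m ≤ x` for which `t m` is even, but does not satisfy `Holds ε`. -/
noncomputable def exceptions (ε : ℝ) (x : ℕ) (t : ℕ → ℕ) : ℕ :=
  ((Icc 1 x).filter (fun m => Even (t m) ∧ ¬ Holds ε (t m))).card

lemma C₂_nonneg : 0 ≤ C₂ := by
  unfold C₂
  apply Real.iInf_nonneg
  intro z
  apply prod_nonneg
  intro p hp
  rw [mem_filter, mem_Icc] at hp
  exact (Pool.Agent.TH894.SM.fac_pos p hp.1.1).le

lemma holds_of (ε : ℝ) (hε : 0 < ε) (n : ℕ) (h2 : 2 ∣ n) (hG : Pool.Agent.W93.GB.Good ε n) : Holds ε n := by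
  obtain ⟨h1, p, q, hp, hq, hpq, hn⟩ := hG
  have hp2 := hp.two_le
  have hn0 : n ≠ 0 := by omega
  have hnr : (0 : ℝ) < n := by exact_mod_cast Nat.pos_of_ne_zero hn0
  have hl : 0 < Real.log n := Real.log_pos (by exact_mod_cast (by omega : 1 < n))
  have ht : (0 : ℝ) < n.totient := by exact_mod_cast Nat.totient_pos.2 (Nat.pos_of_ne_zero hn0)
  obtain ⟨s1, s2⟩ := Pool.Agent.TH894.SM.sing_tot n hn0 h2
  have hC := C₂_nonneg
  obtain ⟨Q, hQ⟩ : ∃ Q : ℝ, Q = n / Real.log n ^ 2 := ⟨_, rfl⟩
  have hQ0 : 0 < Q := by rw [hQ]; positivity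
  have e : (n : ℝ) ^ 2 / (n.totient * Real.log n ^ 2) = n / n.totient * Q := by
    rw [hQ]
    field_simp
  have hHL : HL n = sing n * Q := by
    unfold HL
    rw [hQ]
  have hR0 : 0 < (n : ℝ) / n.totient := by positivity
  refine ⟨h1, ?_, ?_, p, q, hp, hq, hpq, hn⟩
  · rw [e]
    rw [hHL, abs_le] at h1
    rcases le_or_gt ε 1 with hε1 | hε1
    · have h3 : (1 - ε) * (C₂ * (n / n.totient) * Q) ≤ (1 - ε) * (sing n * Q) := by
        apply mul_le_mul_of_nonneg_left _ (by linarith)
        exact mul_le_mul_of_nonneg_right s1 hQ0.le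
      have e2 : (1 - ε) * C₂ * (n / n.totient * Q) = (1 - ε) * (C₂ * (n / n.totient) * Q) := by ring
      rw [e2]
      linarith [h1.1]
    · have h3 : (1 - ε) * C₂ * (n / n.totient * Q) ≤ 0 := by
        apply mul_nonpos_of_nonpos_of_nonneg _ (by positivity)
        exact mul_nonpos_of_nonpos_of_nonneg (by linarith) hC
      exact h3.trans (Nat.cast_nonneg _)
  · rw [e]
    rw [hHL, abs_le] at h1
    have h3 : (1 + ε) * (sing n * Q) ≤ (1 + ε) * (n / n.totient * Q) := by
      apply mul_le_mul_of_nonneg_left _ (by linarith)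
      exact mul_le_mul_of_nonneg_right s2 hQ0.le
    linarith [h1.2]

/-- Let `C`, `U` be natural numbers and `η`, `ε > 0`. For every sufficiently large `N`, every `x` with
`N ^ (1 / 2 + η) ≤ x ≤ N` and ALL numbers `t 1, ..., t x` of `{0, ..., N}` that differ by at most
`(log N) ^ C` from the values of some real function whose second differences are all at least
`N / (x² (log N) ^ C)`, or all at most `-N / (x² (log N) ^ C)`, the following holds for all but at most
`x / (log N) ^ U` of the `m ≤ x`: the number `n = t m` is odd, or the number `g n` of its representations as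
a sum of two primes satisfies the asymptotic formula of Hardy and Littlewood up to a relative error of at
most `ε`, lies between `(1 - ε) C₂` and `1 + ε` times `n² / (φ(n) log² n)`, and `n` is a sum of two
distinct primes. -/
theorem result (C U : ℕ) (η ε : ℝ) (hη : 0 < η) (hε : 0 < ε) : ∃ N₀ : ℕ, ∀ N : ℕ, N₀ ≤ N →
    ∀ x : ℕ, (N : ℝ) ^ (1 / 2 + η) ≤ x → x ≤ N →
    ∀ t : ℕ → ℕ, (∀ m, 1 ≤ m → m ≤ x → t m ≤ N) →
      NearConvex x t (Real.log N ^ C) (N / ((x : ℝ) ^ 2 * Real.log N ^ C)) →
      (exceptions ε x t : ℝ) ≤ x / Real.log N ^ U := by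
  classical
  obtain ⟨N₀, hN₀⟩ := Pool.Agent.K7.H49.CX.goldbach C U η ε hη hε
  refine ⟨N₀, fun N hN x hx hxN t ht hf => ?_⟩
  obtain ⟨f, hf1, hf2⟩ := hf
  unfold exceptions
  exact hN₀ N hN x hx hxN f t (fun m hm => ht m (mem_Icc.1 hm).1 (mem_Icc.1 hm).2)
    ⟨fun m hm => hf1 m (mem_Icc.1 hm).1 (mem_Icc.1 hm).2, hf2⟩
    ((Icc 1 x).filter (fun m => Even (t m) ∧ ¬ Holds ε (t m))) (filter_subset _ _)
    (fun m hm => by
      have h2 := (mem_filter.1 hm).2
      have h3 : 2 ∣ t m := even_iff_two_dvd.1 h2.1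
      exact ⟨h3, fun hG => h2.2 (holds_of ε hε _ h3 hG)⟩)

end Pool.Agent.Results.MP_629a14_nt.ConvexSequences
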