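import Pool.Agent.K7.H49.PR.Basic
import Pool.Agent.K7.H67.BG.Box
import Pool.Agent.TH894.SM8

/-!
# The asymptotic formula for binary Goldbach representation numbers for almost all terms of every short geometric
progression modulo a prime, and for almost all values of multilinear forms on arbitrary sets of residues

Definitions used from `Pool.Agent.H560R3.GB`: `C₂`: the twin prime constant
`∏_{p > 2} (1 - 1 / (p - 1) ^ 2)`; `sing n`: the singular series `2 C₂ ∏_{p ∣ n, p > 2} (p - 1) / (p - 2)`;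
`g n`: the number of ordered representations of `n` as a sum of two primes (`r₂(n; ℙ)` in the problem);
`HL n = sing n * n / log ^ 2 n`: the prediction of Hardy and Littlewood for `g n`. From Mathlib: `ZMod p`: the
residues modulo `p`; `z.val`: the representative of `z` in `{0, ..., p - 1}`; `(ZMod p)ˣ`: the nonzero residues;
`orderOf g`: the order of `g` in this group; `Fintype.piFinset A`: the product of the sets `A i`.

The families may be as thin as `p ^ δ` for every `δ > 0` (a subgroup of this order of the multiplicative group modulo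
`p`, or that many consecutive outputs of a linear congruential generator). The exponential sums over them have a power
saving (theorems of the type of Bourgain, Glibichuk and Konyagin, proved here from the flattening theorem
`Pool.Agent.Y881.SP.flat` of the starting files); so their additive energy of some order is minimal up to a constant
factor, and the theorem on families of small energy of the starting files applies (in the form given to it by
helper49 in `Pool.Agent.K7.H49.PR`, where exponential sums with a power saving are the hypothesis).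
-/

set_option autoImplicit false

namespace Pool.Agent.Results.MP_629a14_nt.MultilinearResidues

open Finset Pool.Agent.H560R3.GB

/-- (1) the number of representations of `n` as a sum of two primes agrees with the prediction of Hardy
and Littlewood up to a relative error of at most `ε`; (2) it lies between `(1 - ε) C₂` and `1 + ε` times
`n² / (φ(n) log² n)`; (3) `n` is a sum of two distinct primes. -/
def Holds (ε : ℝ) (n : ℕ) : Prop :=
  |(g n : ℝ) - HL n| ≤ ε * HL n ∧
  (1 - ε) * C₂ * ((n : ℝ) ^ 2 / (n.totient * Real.log n ^ 2)) ≤ g n ∧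
  (g n : ℝ) ≤ (1 + ε) * ((n : ℝ) ^ 2 / (n.totient * Real.log n ^ 2)) ∧
  ∃ p q : ℕ, p.Prime ∧ q.Prime ∧ p ≠ q ∧ p + q = n

open Classical in
/-- The number of the exponents `1 ≤ m ≤ x` for which `c + κ r` is even, but does not satisfy `Holds ε`, where `r`
is the residue of `b u ^ m + t` modulo `p` in `{0, ..., p - 1}`. -/
noncomputable def powerExceptions {p : ℕ} (ε : ℝ) (b t : ZMod p) (u : (ZMod p)ˣ) (x c κ : ℕ) : ℕ :=
  ((Icc 1 x).filter (fun m => Even (c + κ * (b * ((u ^ m : (ZMod p)ˣ) : ZMod p) + t).val) ∧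
    ¬ Holds ε (c + κ * (b * ((u ^ m : (ZMod p)ˣ) : ZMod p) + t).val))).card

open Classical in
/-- The number of the vectors `u`, `u i ∈ A i`, for which `c + κ r` is even, but does not satisfy `Holds ε`, where `r`
is the residue of `∏ i, u i + ∑ i, f i u` modulo `p` in `{0, ..., p - 1}`. -/
noncomputable def vectorExceptions {p k : ℕ} (ε : ℝ) (A : Fin k → Finset (ZMod p))
    (f : Fin k → (Fin k → ZMod p) → ZMod p) (c κ : ℕ) : ℕ :=
  ((Fintype.piFinset A).filter (fun u => Even (c + κ * (∏ i, u i + ∑ i, f i u).val) ∧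
    ¬ Holds ε (c + κ * (∏ i, u i + ∑ i, f i u).val))).card

lemma char_sum {p : ℕ} [NeZero p] {ι : Type*} (s : Finset ι) (F : ι → ZMod p) :
    (ZMod.stdAddChar (∑ i ∈ s, F i) : ℂ) = ∏ i ∈ s, (ZMod.stdAddChar (F i) : ℂ) := by
  classical
  induction s using Finset.induction_on with
  | empty => rw [sum_empty, prod_empty, AddChar.map_zero_eq_one]
  | insert a s ha ih => rw [sum_insert ha, prod_insert ha, AddChar.map_add_eq_mul, ih]

lemma C₂_nonneg : 0 ≤ C₂ := by
  unfold C₂
  apply Real.iInf_nonneg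
  intro z
  apply prod_nonneg
  intro p hp
  rw [mem_filter, mem_Icc] at hp
  exact (Pool.Agent.TH894.SM.fac_pos p hp.1.1).le

lemma holds_of (ε : ℝ) (hε : 0 < ε) (n : ℕ) (h2 : 2 ∣ n) (hG : Pool.Agent.W93.GB.Good ε n) : Holds ε n := by
  obtain ⟨h1, p, q, hp, hq, hpq, hn⟩ := hG
  have hp2 := hp.two_le
  have hn0 : n ≠ 0 := by omega
  have hnr : (0 : ℝ) < n := by exact_mod_cast Nat.pos_of_ne_zero hn0
  have hl : 0 < Real.log n := Real.log_pos (by exact_mod_cast (by omega : 1 < n))
  have ht : (0 : ℝ) < n.totient := by exact_mod_cast Nat.totient_pos.2 (Nat.pos_of_ne_zero hn0)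
  obtain ⟨s1, s2⟩ := Pool.Agent.TH894.SM.sing_tot n hn0 h2
  have hC := C₂_nonneg
  obtain ⟨Q, hQ⟩ : ∃ Q : ℝ, Q = n / Real.log n ^ 2 := ⟨_, rfl⟩
  have hQ0 : 0 < Q := by rw [hQ]; positivity
  have e : (n : ℝ) ^ 2 / (n.totient * Real.log n ^ 2) = n / n.totient * Q := by
    rw [hQ]
    field_simp
  have hHL : HL n = sing n * Q := by
    unfold HL
    rw [hQ]
  have hR0 : 0 < (n : ℝ) / n.totient := by positivity
  refine ⟨h1, ?_, ?_, p, q, hp, hq, hpq, hn⟩
  · rw [e]
    rw [hHL, abs_le] at h1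
    rcases le_or_gt ε 1 with hε1 | hε1
    · have h3 : (1 - ε) * (C₂ * (n / n.totient) * Q) ≤ (1 - ε) * (sing n * Q) := by
        apply mul_le_mul_of_nonneg_left _ (by linarith)
        exact mul_le_mul_of_nonneg_right s1 hQ0.le
      have e2 : (1 - ε) * C₂ * (n / n.totient * Q) = (1 - ε) * (C₂ * (n / n.totient) * Q) := by ring
      rw [e2]
      linarith [h1.1]
    · have h3 : (1 - ε) * C₂ * (n / n.totient * Q) ≤ 0 := by
        apply mul_nonpos_of_nonpos_of_nonneg _ (by positivity)
        exact mul_nonpos_of_nonpos_of_nonneg (by linarith) hC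
      exact h3.trans (Nat.cast_nonneg _)
  · rw [e]
    rw [hHL, abs_le] at h1
    have h3 : (1 + ε) * (sing n * Q) ≤ (1 + ε) * (n / n.totient * Q) := by
      apply mul_le_mul_of_nonneg_left _ (by linarith)
      exact mul_le_mul_of_nonneg_right s2 hQ0.le
    linarith [h1.2]

/-- Let `C`, `U` be natural numbers and `δ`, `ε > 0`.

(1) For every sufficiently large prime `p`, all integers `c ≥ 0`, `κ ≥ 1` with `c + κ p ≤ p (log p) ^ C`, all residues
`u`, `b` prime to `p`, every residue `t` and all `x ≥ p ^ δ` at most equal to the order of `u` modulo `p`: for all but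
at most `x / (log p) ^ U` of the exponents `1 ≤ m ≤ x` the number `n = c + κ r`, where `0 ≤ r < p` and
`r ≡ b u ^ m + t (mod p)`, is odd or satisfies `Holds ε`.

(2) For every `k ≥ k₀(δ)` and every sufficiently large prime `p` the following holds for all `c`, `κ` as above. For
ALL sets `A 1, ..., A k` of at least `p ^ δ` residues modulo `p` and ALL functions `f 1, ..., f k` of `k` residues
such that `f i` does not depend on the `i`-th variable, for all but at most `∏ |A i| / (log p) ^ U` of the vectors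
`u`, `u i ∈ A i`, the number `n = c + κ r`, where `0 ≤ r < p` and `r ≡ u 1 u 2 ... u k + ∑ f i (u) (mod p)`, is odd or
satisfies `Holds ε`.

Here `Holds ε` says that the number `g n` of representations of `n` as a sum of two primes satisfies the asymptotic
formula of Hardy and Littlewood up to a relative error of at most `ε`, and lies between `(1 - ε) C₂` and `1 + ε`
times `n² / (φ(n) log² n)`, and that `n` is a sum of two distinct primes. -/
theorem result (C U : ℕ) (δ ε : ℝ) (hδ : 0 < δ) (hε : 0 < ε) :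
    (∃ p₀ : ℕ, ∀ p : ℕ, p₀ ≤ p → p.Prime → ∀ c κ : ℕ, 1 ≤ κ → (c : ℝ) + κ * p ≤ p * Real.log p ^ C →
      ∀ (b t : ZMod p) (u : (ZMod p)ˣ) (x : ℕ), b ≠ 0 → (p : ℝ) ^ δ ≤ x → x ≤ orderOf u →
        (powerExceptions ε b t u x c κ : ℝ) ≤ x / Real.log p ^ U) ∧
    (∃ k₀ : ℕ, ∀ k : ℕ, k₀ ≤ k → ∃ p₀ : ℕ, ∀ p : ℕ, p₀ ≤ p → p.Prime →
      ∀ c κ : ℕ, 1 ≤ κ → (c : ℝ) + κ * p ≤ p * Real.log p ^ C →
      ∀ A : Fin k → Finset (ZMod p), (∀ i, (p : ℝ) ^ δ ≤ (A i).card) →
      ∀ f : Fin k → (Fin k → ZMod p) → ZMod p,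
        (∀ (i : Fin k) (u v : Fin k → ZMod p), (∀ j, j ≠ i → u j = v j) → f i u = f i v) →
        (vectorExceptions ε A f c κ : ℝ) ≤ (∏ i, ((A i).card : ℝ)) / Real.log p ^ U) := by
  classical
  constructor
  · obtain ⟨γ, hγ, p₁, hgeo⟩ := Pool.Agent.K7.H67.BG.geo δ hδ
    obtain ⟨q₁, h1⟩ := Pool.Agent.K7.H49.PR.goldbach C U γ ε hγ hε
    refine ⟨max p₁ q₁, fun p hp hpp c κ hκ hcκ b t u x hb hx hxu => ?_⟩
    have : Fact p.Prime := ⟨hpp⟩
    have : NeZero p := ⟨hpp.ne_zero⟩
    have hcκ' : ((c + κ * p : ℕ) : ℝ) ≤ p * Real.log p ^ C := by push_cast; exact hcκ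
    obtain ⟨τ, hτ⟩ : ∃ τ : ℕ → ℕ, τ = fun m => (b * ((u ^ m : (ZMod p)ˣ) : ZMod p) + t).val := ⟨_, rfl⟩
    have hsup : ∀ k : ℕ, 1 ≤ k → k < p →
        ‖∑ m ∈ Icc 1 x, Pool.Agent.H807R2.Dav.ee ((k : ℝ) * ((τ m : ℝ) / p))‖ ≤ (Icc 1 x).card * (p : ℝ) ^ (-γ) := by
      intro k hk1 hkp
      have hk0 : (k : ZMod p) ≠ 0 := by
        intro h
        rw [ZMod.natCast_eq_zero_iff] at h
        exact absurd (Nat.le_of_dvd (by omega) h) (by omega)
      have h2 := hgeo p (le_trans (le_max_left _ _) hp) u x hx hxu ((k : ZMod p) * b) (mul_ne_zero hk0 hb)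
      have h3 : ∑ m ∈ Icc 1 x, Pool.Agent.H807R2.Dav.ee ((k : ℝ) * ((τ m : ℝ) / p)) =
          (ZMod.stdAddChar ((k : ZMod p) * t) : ℂ) *
            ∑ m ∈ Icc 1 x, (ZMod.stdAddChar ((k : ZMod p) * b * Pool.Agent.K7.H67.BG.gv u m) : ℂ) := by
        rw [mul_sum]
        refine sum_congr rfl fun m _ => ?_
        rw [hτ, Pool.Agent.K7.H49.PR.ee_val, ← AddChar.map_add_eq_mul]
        congr 1
        unfold Pool.Agent.K7.H67.BG.gv
        ring
      rw [h3, norm_mul, AddChar.norm_apply, one_mul, Nat.card_Icc, Nat.add_sub_cancel]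
      exact h2
    have h4 := h1 p (le_trans (le_max_right _ _) hp) ℕ (Icc 1 x) τ
      (fun m _ => by rw [hτ]; exact (ZMod.val_lt _).le) hsup c κ hκ hcκ'
      ((Icc 1 x).filter (fun m => Even (c + κ * (b * ((u ^ m : (ZMod p)ˣ) : ZMod p) + t).val) ∧
        ¬ Holds ε (c + κ * (b * ((u ^ m : (ZMod p)ˣ) : ZMod p) + t).val))) (filter_subset _ _)
      (fun m hm => by
        have h5 := (mem_filter.1 hm).2
        have h6 : 2 ∣ c + κ * τ m := by rw [hτ]; exact even_iff_two_dvd.1 h5.1
        refine ⟨h6, fun hG => h5.2 ?_⟩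
        have h7 := holds_of ε hε _ h6 hG
        rw [hτ] at h7
        exact h7)
    rw [Nat.card_Icc, Nat.add_sub_cancel] at h4
    unfold powerExceptions
    exact h4
  · obtain ⟨k₀, hk₀⟩ := Pool.Agent.K7.H67.BG.sets δ hδ
    refine ⟨k₀, fun k hk => ?_⟩
    obtain ⟨γ, hγ, p₁, hbox⟩ := hk₀ k hk
    obtain ⟨q₁, h1⟩ := Pool.Agent.K7.H49.PR.goldbach C U γ ε hγ hε
    refine ⟨max p₁ q₁, fun p hp hpp c κ hκ hcκ A hA f hf => ?_⟩
    have : Fact p.Prime := ⟨hpp⟩
    have : NeZero p := ⟨hpp.ne_zero⟩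
    have hcκ' : ((c + κ * p : ℕ) : ℝ) ≤ p * Real.log p ^ C := by push_cast; exact hcκ
    obtain ⟨τ, hτ⟩ : ∃ τ : (Fin k → ZMod p) → ℕ, τ = fun u => (∏ i, u i + ∑ i, f i u).val := ⟨_, rfl⟩
    have hcard : ((Fintype.piFinset A).card : ℝ) = ∏ i, ((A i).card : ℝ) := by
      rw [Fintype.card_piFinset]
      push_cast
      rfl
    have hsup : ∀ j : ℕ, 1 ≤ j → j < p →
        ‖∑ u ∈ Fintype.piFinset A, Pool.Agent.H807R2.Dav.ee ((j : ℝ) * ((τ u : ℝ) / p))‖ ≤
          (Fintype.piFinset A).card * (p : ℝ) ^ (-γ) := by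
      intro j hj1 hjp
      have hj0 : (j : ZMod p) ≠ 0 := by
        intro h
        rw [ZMod.natCast_eq_zero_iff] at h
        exact absurd (Nat.le_of_dvd (by omega) h) (by omega)
      have h2 := hbox p (le_trans (le_max_left _ _) hp) A hA (j : ZMod p) hj0
        (fun i u => (ZMod.stdAddChar ((j : ZMod p) * f i u) : ℂ)) (fun i u => (AddChar.norm_apply _ _).le)
        (fun i u v huv => by simp only [hf i u v huv])
      have h3 : ∑ u ∈ Fintype.piFinset A, Pool.Agent.H807R2.Dav.ee ((j : ℝ) * ((τ u : ℝ) / p)) =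
          ∑ u ∈ Fintype.piFinset A, (ZMod.stdAddChar ((j : ZMod p) * ∏ i, u i) : ℂ) *
            ∏ i, (ZMod.stdAddChar ((j : ZMod p) * f i u) : ℂ) := by
        refine sum_congr rfl fun u _ => ?_
        rw [hτ, Pool.Agent.K7.H49.PR.ee_val, ← char_sum, ← AddChar.map_add_eq_mul]
        congr 1
        rw [mul_add, mul_sum]
      rw [h3, hcard]
      exact h2
    have h4 := h1 p (le_trans (le_max_right _ _) hp) (Fin k → ZMod p) (Fintype.piFinset A) τ
      (fun m _ => by rw [hτ]; exact (ZMod.val_lt _).le) hsup c κ hκ hcκ'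
      ((Fintype.piFinset A).filter (fun u => Even (c + κ * (∏ i, u i + ∑ i, f i u).val) ∧
        ¬ Holds ε (c + κ * (∏ i, u i + ∑ i, f i u).val))) (filter_subset _ _)
      (fun m hm => by
        have h5 := (mem_filter.1 hm).2
        have h6 : 2 ∣ c + κ * τ m := by rw [hτ]; exact even_iff_two_dvd.1 h5.1
        refine ⟨h6, fun hG => h5.2 ?_⟩
        have h7 := holds_of ε hε _ h6 hG
        rw [hτ] at h7
        exact h7)
    rw [hcard] at h4
    unfold vectorExceptions
    exact h4

end Pool.Agent.Results.MP_629a14_nt.MultilinearResidues
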